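import Pool.Agent.H601_Pen.Calc

/-!
# The signed count for the square antiprism
-/

namespace Pool.Agent.H601_Pen

/-- the last ten matrices -/
def gs10 : List ℕ := [387, 4831840512, 1168231108864, 1236951171072, 299067163869184, 25362432, 316659499794432, 351865195724800, 1662152343552, 425510999949312]

set_option maxRecDepth 100000 in
theorem val_0 : S gs10 0 = 0 := by decide +kernel

set_option maxRecDepth 100000 in
theorem val_1 : S gs10 4563402769 = 0 := by decide +kernel

set_option maxRecDepth 100000 in
theorem val_2 : S gs10 18874377 = 0 := by decide +kernel

set_option maxRecDepth 100000 in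
theorem val_3 : S gs10 4582277144 = 0 := by decide +kernel

set_option maxRecDepth 100000 in
theorem val_4 : S gs10 16777216 = 16 := by decide +kernel

set_option maxRecDepth 100000 in
theorem val_5 : S gs10 4580179985 = -16 := by decide +kernel

set_option maxRecDepth 100000 in
theorem val_6 : S gs10 2097161 = -24 := by decide +kernel

set_option maxRecDepth 100000 in
theorem val_7 : S gs10 4565499928 = -4 := by decide +kernel

set_option maxRecDepth 100000 in
theorem val_8 : S gs10 65536 = 16 := by decide +kernel

set_option maxRecDepth 100000 in
theorem val_9 : S gs10 4563468305 = -16 := by decide +kernel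

set_option maxRecDepth 100000 in
theorem val_10 : S gs10 18939913 = -24 := by decide +kernel

set_option maxRecDepth 100000 in
theorem val_11 : S gs10 4582342680 = -4 := by decide +kernel

set_option maxRecDepth 100000 in
theorem val_12 : S gs10 16842752 = 0 := by decide +kernel

set_option maxRecDepth 100000 in
theorem val_13 : S gs10 4580245521 = 0 := by decide +kernel

set_option maxRecDepth 100000 in
theorem val_14 : S gs10 2162697 = 0 := by decide +kernel

set_option maxRecDepth 100000 in
theorem val_15 : S gs10 4565565464 = 0 := by decide +kernel

set_option maxRecDepth 100000 in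
theorem val_16 : S gs10 256 = 16 := by decide +kernel

set_option maxRecDepth 100000 in
theorem val_17 : S gs10 4563403025 = -16 := by decide +kernel

set_option maxRecDepth 100000 in
theorem val_18 : S gs10 18874633 = -24 := by decide +kernel

set_option maxRecDepth 100000 in
theorem val_19 : S gs10 4582277400 = -4 := by decide +kernel

set_option maxRecDepth 100000 in
theorem val_20 : S gs10 16777472 = -8 := by decide +kernel

set_option maxRecDepth 100000 in
theorem val_21 : S gs10 4580180241 = 8 := by decide +kernel

set_option maxRecDepth 100000 in
theorem val_22 : S gs10 2097417 = 8 := by decide +kernel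

set_option maxRecDepth 100000 in
theorem val_23 : S gs10 4565500184 = -8 := by decide +kernel

set_option maxRecDepth 100000 in
theorem val_24 : S gs10 65792 = -16 := by decide +kernel

set_option maxRecDepth 100000 in
theorem val_25 : S gs10 4563468561 = 16 := by decide +kernel

set_option maxRecDepth 100000 in
theorem val_26 : S gs10 18940169 = 16 := by decide +kernel

set_option maxRecDepth 100000 in
theorem val_27 : S gs10 4582342936 = -32 := by decide +kernel

set_option maxRecDepth 100000 in
theorem val_28 : S gs10 16843008 = -20 := by decide +kernel

set_option maxRecDepth 100000 in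
theorem val_29 : S gs10 4580245777 = 20 := by decide +kernel

set_option maxRecDepth 100000 in
theorem val_30 : S gs10 2162953 = 12 := by decide +kernel

set_option maxRecDepth 100000 in
theorem val_31 : S gs10 4565565720 = 40 := by decide +kernel

set_option maxRecDepth 100000 in
theorem val_32 : S gs10 1 = 16 := by decide +kernel

set_option maxRecDepth 100000 in
theorem val_33 : S gs10 4563402768 = -16 := by decide +kernel

set_option maxRecDepth 100000 in
theorem val_34 : S gs10 18874376 = -24 := by decide +kernel

set_option maxRecDepth 100000 in
theorem val_35 : S gs10 4582277145 = -4 := by decide +kernel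

set_option maxRecDepth 100000 in
theorem val_36 : S gs10 16777217 = -60 := by decide +kernel

set_option maxRecDepth 100000 in
theorem val_37 : S gs10 4580179984 = 44 := by decide +kernel

set_option maxRecDepth 100000 in
theorem val_38 : S gs10 2097160 = -60 := by decide +kernel

set_option maxRecDepth 100000 in
theorem val_39 : S gs10 4565499929 = 44 := by decide +kernel

set_option maxRecDepth 100000 in
theorem val_40 : S gs10 65537 = -40 := by decide +kernel

set_option maxRecDepth 100000 in
theorem val_41 : S gs10 4563468304 = -24 := by decide +kernel

set_option maxRecDepth 100000 in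
theorem val_42 : S gs10 18939912 = 40 := by decide +kernel

set_option maxRecDepth 100000 in
theorem val_43 : S gs10 4582342681 = 24 := by decide +kernel

set_option maxRecDepth 100000 in
theorem val_44 : S gs10 16842753 = 20 := by decide +kernel

set_option maxRecDepth 100000 in
theorem val_45 : S gs10 4580245520 = 48 := by decide +kernel

set_option maxRecDepth 100000 in
theorem val_46 : S gs10 2162696 = 32 := by decide +kernel

set_option maxRecDepth 100000 in
theorem val_47 : S gs10 4565565465 = -56 := by decide +kernel

set_option maxRecDepth 100000 in
theorem val_48 : S gs10 257 = 0 := by decide +kernel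

set_option maxRecDepth 100000 in
theorem val_49 : S gs10 4563403024 = 0 := by decide +kernel

set_option maxRecDepth 100000 in
theorem val_50 : S gs10 18874632 = 0 := by decide +kernel

set_option maxRecDepth 100000 in
theorem val_51 : S gs10 4582277401 = 0 := by decide +kernel

set_option maxRecDepth 100000 in
theorem val_52 : S gs10 16777473 = -36 := by decide +kernel

set_option maxRecDepth 100000 in
theorem val_53 : S gs10 4580180240 = -8 := by decide +kernel

set_option maxRecDepth 100000 in
theorem val_54 : S gs10 2097416 = 44 := by decide +kernel

set_option maxRecDepth 100000 in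
theorem val_55 : S gs10 4565500185 = -44 := by decide +kernel

set_option maxRecDepth 100000 in
theorem val_56 : S gs10 65793 = -8 := by decide +kernel

set_option maxRecDepth 100000 in
theorem val_57 : S gs10 4563468560 = 32 := by decide +kernel

set_option maxRecDepth 100000 in
theorem val_58 : S gs10 18940168 = -44 := by decide +kernel

set_option maxRecDepth 100000 in
theorem val_59 : S gs10 4582342937 = -16 := by decide +kernel

set_option maxRecDepth 100000 in
theorem val_60 : S gs10 16843009 = 40 := by decide +kernel

set_option maxRecDepth 100000 in
theorem val_61 : S gs10 4580245776 = -48 := by decide +kernel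

set_option maxRecDepth 100000 in
theorem val_62 : S gs10 2162952 = -88 := by decide +kernel

set_option maxRecDepth 100000 in
theorem val_63 : S gs10 4565565721 = 80 := by decide +kernel

theorem S_gs : S gs 0 = 160 := by
  have h : S gs 0 =
      ((((((S gs10 0 - S gs10 4563402769) - (S gs10 18874377 - S gs10 4582277144)) - ((S gs10 16777216 - S gs10 4580179985) - (S gs10 2097161 - S gs10 4565499928))) - (((S gs10 65536 - S gs10 4563468305) - (S gs10 18939913 - S gs10 4582342680)) - ((S gs10 16842752 - S gs10 4580245521) - (S gs10 2162697 - S gs10 4565565464)))) - ((((S gs10 256 - S gs10 4563403025) - (S gs10 18874633 - S gs10 4582277400)) - ((S gs10 16777472 - S gs10 4580180241) - (S gs10 2097417 - S gs10 4565500184))) - (((S gs10 65792 - S gs10 4563468561) - (S gs10 18940169 - S gs10 4582342936)) - ((S gs10 16843008 - S gs10 4580245777) - (S gs10 2162953 - S gs10 4565565720))))) - (((((S gs10 1 - S gs10 4563402768) - (S gs10 18874376 - S gs10 4582277145)) - ((S gs10 16777217 - S gs10 4580179984) - (S gs10 2097160 - S gs10 4565499929))) - (((S gs10 65537 - S gs10 4563468304) - (S gs10 18939912 - S gs10 4582342681)) - ((S gs10 16842753 - S gs10 4580245520)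 - (S gs10 2162696 - S gs10 4565565465)))) - ((((S gs10 257 - S gs10 4563403024) - (S gs10 18874632 - S gs10 4582277401)) - ((S gs10 16777473 - S gs10 4580180240) - (S gs10 2097416 - S gs10 4565500185))) - (((S gs10 65793 - S gs10 4563468560) - (S gs10 18940168 - S gs10 4582342937)) - ((S gs10 16843009 - S gs10 4580245776) - (S gs10 2162952 - S gs10 4565565721)))))) := by
    have h1 : gs = 1 :: 256 :: 65536 :: 16777216 :: 18874377 :: 4563402769 :: gs10 := rfl
    rw [h1]
    simp only [S]
    rfl
  rw [h, val_0, val_1, val_2, val_3, val_4, val_5, val_6, val_7, val_8, val_9, val_10, val_11, val_12, val_13, val_14, val_15, val_16, val_17, val_18, val_19, val_20, val_21, val_22, val_23, val_24, val_25, val_26, val_27, val_28, val_29, val_30, val_31, val_32, val_33, val_34, val_35, val_36, val_37, val_38, val_39, val_40, val_41, val_42, val_43, val_44, val_45, val_46, val_47, val_48, val_49, val_50, val_51, val_52, val_53, val_54, val_55, val_56, val_57, val_58, val_59, val_60, val_61, val_62, val_63]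
  rfl

end Pool.Agent.H601_Pen
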