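import Pool.Agent.H601_Pen.Exc
import Pool.Agent.H601_Pen.Val

/-!
# The bond matroid of the square antiprism
-/

namespace Pool.Agent.H601_Pen

open Finset Polynomial Module

/-! ### incidence matrix form of cuts and cycles -/

lemma bd_inc {V ε : Type} [DecidableEq V] [Fintype V] [DecidableEq ε] [Fintype ε] (u v : ε → V)
    (y : V → ZMod 2) : BM.bd Finset.univ u v y = (inc u v).transpose.mulVec y := by
  funext e
  simp only [BM.bd, Finset.mem_univ, if_true, Matrix.mulVec, dotProduct, Matrix.transpose_apply, inc,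
    add_mul, ite_mul, one_mul, zero_mul, Finset.sum_add_distrib, Finset.sum_ite_eq]

lemma orth_inc {V ε : Type} [DecidableEq V] [Fintype V] [DecidableEq ε] [Fintype ε] (u v : ε → V)
    (c : ε → ZMod 2) : (∀ y : V → ZMod 2, ∑ e, c e * BM.bd Finset.univ u v y e = 0) ↔
      (inc u v).mulVec c = 0 := by
  constructor
  · intro h
    funext x
    refine Eq.trans ?_ (h (Pi.single x 1))
    rw [Matrix.mulVec, dotProduct]
    apply Finset.sum_congr rfl
    intro e _
    rw [bd_inc, Matrix.mulVec_single_one, mul_comm]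
    rfl
  · intro h y
    have h1 : ∑ e, c e * BM.bd Finset.univ u v y e = dotProduct ((inc u v).mulVec c) y := by
      rw [bd_inc]
      have h2 : ∑ e, c e * ((inc u v).transpose.mulVec y) e =
          dotProduct c ((inc u v).transpose.mulVec y) := rfl
      rw [h2, Matrix.dotProduct_mulVec, Matrix.vecMul_transpose]
    rw [h1, h, zero_dotProduct]

/-! ### the square antiprism -/

/-- first face of each edge -/
def faceU : Fin 16 → Fin 10 := ![0, 0, 2, 1, 1, 3, 0, 3, 4, 6, 5, 2, 5, 7, 4, 6]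

/-- second face of each edge -/
def faceV : Fin 16 → Fin 10 := ![1, 8, 8, 2, 9, 9, 3, 4, 8, 8, 6, 5, 9, 9, 7, 7]

/-- potentials -/
def antiY : Matrix (Fin 8) (Fin 16) (ZMod 2) :=
  ![![0, 0, 0, 0, 0, 0, 0, 0, 0, 0, 0, 0, 0, 0, 0, 0],
    ![1, 0, 0, 0, 0, 0, 0, 0, 0, 0, 0, 0, 0, 0, 0, 0],
    ![0, 1, 0, 0, 0, 0, 0, 0, 0, 0, 0, 0, 0, 0, 0, 0],
    ![0, 0, 1, 0, 0, 0, 0, 0, 0, 0, 0, 0, 0, 0, 0, 0],
    ![0, 0, 0, 1, 0, 0, 0, 0, 0, 0, 0, 0, 0, 0, 0, 0],
    ![1, 0, 0, 0, 0, 1, 0, 0, 0, 0, 0, 0, 0, 0, 0, 0],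
    ![0, 1, 0, 0, 0, 0, 0, 0, 1, 0, 0, 0, 0, 0, 0, 0],
    ![0, 0, 1, 0, 0, 0, 0, 0, 0, 0, 1, 0, 0, 0, 0, 0]]

/-- face combinations -/
def antiA : Matrix (Fin 16) (Fin 10) (ZMod 2) :=
  ![![0, 0, 0, 0, 0, 0, 0, 0, 0, 0], ![0, 0, 0, 0, 0, 0, 0, 0, 0, 0],
    ![0, 0, 0, 0, 0, 0, 0, 0, 0, 0], ![0, 0, 0, 0, 0, 0, 0, 0, 0, 0],
    ![0, 1, 0, 0, 0, 0, 0, 0, 0, 0], ![0, 0, 0, 0, 0, 0, 0, 0, 0, 0],
    ![1, 0, 0, 0, 0, 0, 0, 0, 0, 0], ![1, 0, 0, 1, 0, 0, 0, 0, 0, 0],
    ![0, 0, 0, 0, 0, 0, 0, 0, 0, 0], ![0, 0, 0, 0, 0, 0, 0, 0, 1, 0],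
    ![0, 0, 0, 0, 0, 0, 0, 0, 0, 0], ![0, 0, 1, 0, 0, 0, 0, 0, 0, 0],
    ![0, 0, 1, 0, 0, 1, 0, 0, 0, 0], ![0, 1, 1, 0, 0, 1, 0, 0, 0, 1],
    ![1, 0, 0, 1, 1, 0, 0, 0, 0, 0], ![0, 0, 0, 0, 0, 0, 1, 0, 1, 0]]

lemma anti_zero : inc faceU faceV * (inc antiU antiV).transpose = 0 := by decide +kernel

lemma anti_id : (1 : Matrix (Fin 16) (Fin 16) (ZMod 2)) =
    (inc antiU antiV).transpose * antiY + antiA * inc faceU faceV := by decide +kernel

lemma mem_antiprism (c : Fin 16 → ZMod 2) :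
    c ∈ antiprism.C ↔ ∃ y : Fin 8 → ZMod 2, c = BM.bd Finset.univ antiU antiV y := Iff.rfl

lemma antiprism_cographic : BM.Cographic antiprism :=
  ⟨Fin 8, inferInstance, antiU, antiV, fun c => mem_antiprism c⟩

lemma antiprism_graphic : BM.Graphic antiprism := by
  refine ⟨Fin 10, inferInstance, faceU, faceV, fun c => ?_⟩
  have hE : antiprism.E = Finset.univ := rfl
  rw [hE, orth_inc, mem_antiprism]
  constructor
  · rintro ⟨y, rfl⟩
    refine ⟨fun e he => absurd (Finset.mem_univ e) he, ?_⟩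
    rw [bd_inc, Matrix.mulVec_mulVec, anti_zero, Matrix.zero_mulVec]
  · rintro ⟨-, h⟩
    refine ⟨antiY.mulVec c, ?_⟩
    have h6 : c = (1 : Matrix (Fin 16) (Fin 16) (ZMod 2)).mulVec c := (Matrix.one_mulVec c).symm
    rw [anti_id, Matrix.add_mulVec, ← Matrix.mulVec_mulVec, ← Matrix.mulVec_mulVec, h,
      Matrix.mulVec_zero, add_zero] at h6
    rw [bd_inc]
    exact h6

lemma antiprism_bridgeless : antiprism.Bridgeless := by
  intro e _
  refine ⟨BM.bd Finset.univ antiU antiV (Pi.single (antiU e) 1), ⟨_, rfl⟩, ?_⟩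
  revert e
  decide +kernel

/-- coordinates of the cuts -/
def antiG : Matrix (Fin 16) (Fin 7) (ZMod 2) := fun e i => inc antiU antiV i.succ e

lemma antiG_mulVec (x : Fin 7 → ZMod 2) :
    antiG.mulVec x = BM.bd Finset.univ antiU antiV (Fin.cons 0 x) := by
  rw [bd_inc]
  funext e
  simp only [Matrix.mulVec, dotProduct, Fin.sum_univ_succ (n := 7), Fin.cons_zero, mul_zero, zero_add,
    Fin.cons_succ]
  rfl

lemma antiG_mem (x : Fin 7 → ZMod 2) : antiG.mulVec x ∈ antiprism.C :=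
  (mem_antiprism _).mpr ⟨_, antiG_mulVec x⟩

lemma antiG_surj (c : Fin 16 → ZMod 2) (hc : c ∈ antiprism.C) : ∃ x, c = antiG.mulVec x := by
  obtain ⟨y, rfl⟩ := (mem_antiprism c).mp hc
  refine ⟨fun i => y i.succ + y 0, ?_⟩
  rw [antiG_mulVec]
  have h : ∀ a : Fin 8, (Fin.cons 0 (fun i : Fin 7 => y i.succ + y 0) : Fin 8 → ZMod 2) a = y a + y 0 := by
    intro a
    refine Fin.cases ?_ (fun i => ?_) a
    · rw [Fin.cons_zero]; exact (BM.z2_add rfl).symm
    · rw [Fin.cons_succ]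
  funext e
  simp only [BM.bd, Finset.mem_univ, if_true, h]
  have h2 : y 0 + y 0 = 0 := BM.z2_add rfl
  linear_combination -h2

lemma antiG_inj : ∀ x : Fin 7 → ZMod 2, antiG.mulVec x = 0 → x = 0 := by
  decide +kernel

lemma antiprism_finrank : finrank (ZMod 2) antiprism.C = 7 := by
  apply le_antisymm
  · have h : antiprism.C ≤ LinearMap.range antiG.mulVecLin := by
      intro c hc
      obtain ⟨x, rfl⟩ := antiG_surj c hc
      exact ⟨x, rfl⟩
    refine (Submodule.finrank_mono h).trans ?_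
    refine (LinearMap.finrank_range_le _).trans ?_
    rw [Module.finrank_fin_fun]
  · exact finrank_ge _ antiG antiG_mem antiG_inj

/-- packed matrix of the edge `e` -/
def code (e : Fin 16) : ℕ := gs.getD e 0

lemma dec_code' : ∀ e : Fin 16, dec (code e) = Matrix.vecMulVec (antiG e) (antiG e) := by
  decide +kernel

lemma dec_code (e : Fin 16) (i j : Fin 7) : dec (code e) i j = antiG e i * antiG e j := by
  rw [dec_code' e, Matrix.vecMulVec_apply]

lemma B_bot_iff (A : Finset (Fin 16)) :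
    antiprism.B A = ⊥ ↔ Ns (dec 0 + ∑ e ∈ A, dec (code e)) := by
  have hdec0 : dec 0 = 0 := by funext i j; simp [dec]
  rw [hdec0, zero_add]
  -- the form
  have hform : ∀ x : Fin 7 → ZMod 2, antiG.mulVec x ∈ antiprism.B A ↔
      ∀ j, ∑ i, x i * (∑ e ∈ A, dec (code e)) i j = 0 := by
    intro x
    have h1 : ∀ j, ∑ i, x i * (∑ e ∈ A, dec (code e)) i j = ∑ e ∈ A, antiG.mulVec x e * antiG e j := by
      intro j
      simp only [Matrix.sum_apply, dec_code, Matrix.mulVec, dotProduct, Finset.sum_mul, Finset.mul_sum]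
      rw [Finset.sum_comm]
      apply Finset.sum_congr rfl
      intro e _
      apply Finset.sum_congr rfl
      intro i _
      ring
    simp only [h1]
    have h2 : ∀ d : Fin 16 → ZMod 2, ∑ e ∈ antiprism.E, cut A (antiG.mulVec x) e * d e =
        ∑ e ∈ A, antiG.mulVec x e * d e := by
      intro d
      have hE : antiprism.E = Finset.univ := rfl
      rw [hE]
      simp only [cut, LinearMap.coe_mk, AddHom.coe_mk, ite_mul, zero_mul]
      rw [← Finset.sum_filter]
      congr 1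
      ext e
      simp
    constructor
    · intro h j
      have h3 : cut A (antiG.mulVec x) ∈ antiprism.K := (Submodule.mem_inf.mp h).2
      have h4 := h3.2 _ (antiG_mem (Pi.single j 1))
      rw [h2, Matrix.mulVec_single_one] at h4
      exact h4
    · intro h
      refine Submodule.mem_inf.mpr ⟨antiG_mem x, ?_⟩
      refine ⟨fun e he => absurd (Finset.mem_univ e) he, fun c hc => ?_⟩
      obtain ⟨y, rfl⟩ := antiG_surj c hc
      rw [h2]
      have h5 : ∀ e, antiG.mulVec y e = ∑ j, antiG e j * y j := fun e => rfl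
      simp only [h5, Finset.mul_sum]
      rw [Finset.sum_comm]
      apply Finset.sum_eq_zero
      intro j _
      have h6 : ∑ e ∈ A, antiG.mulVec x e * (antiG e j * y j) = (∑ e ∈ A, antiG.mulVec x e * antiG e j) * y j := by
        rw [Finset.sum_mul]
        apply Finset.sum_congr rfl
        intro e _
        ring
      rw [h6, h j, zero_mul]
  constructor
  · intro h x hx
    have h1 := (hform x).mpr hx
    rw [h, Submodule.mem_bot] at h1
    exact antiG_inj x h1
  · intro h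
    rw [Submodule.eq_bot_iff]
    intro c hc
    obtain ⟨x, rfl⟩ := antiG_surj c (Submodule.mem_inf.mp hc).1
    rw [h x ((hform x).mp hc), Matrix.mulVec_zero]

lemma antiprism_coeff : antiprism.P.coeff 0 = 160 := by
  rw [Polynomial.coeff_zero_eq_eval_zero, BM.P, Polynomial.eval_finsetSum]
  have hE : antiprism.E = Finset.univ := rfl
  rw [hE]
  have h1 : ∀ A : Finset (Fin 16), Polynomial.eval 0
      ((-1 : ℤ[X]) ^ A.card * X ^ finrank (ZMod 2) (antiprism.B A)) =
      (-1 : ℤ) ^ A.card * ind (dec 0 + ∑ e ∈ A, dec (code e)) := by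
    intro A
    rw [Polynomial.eval_mul, Polynomial.eval_pow, Polynomial.eval_pow, Polynomial.eval_neg,
      Polynomial.eval_one, Polynomial.eval_X]
    congr 1
    unfold ind
    by_cases h : antiprism.B A = ⊥
    · rw [if_pos ((B_bot_iff A).mp h), h, finrank_bot, pow_zero]
    · rw [if_neg (fun h' => h ((B_bot_iff A).mpr h'))]
      apply zero_pow
      intro h'
      exact h (Submodule.finrank_eq_zero.mp h')
  rw [Finset.sum_congr rfl (fun A _ => h1 A)]
  have h2 := S_eq code (List.finRange 16) (List.nodup_finRange 16) 0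
  have h3 : (List.finRange 16).map code = gs := by decide
  have h4 : (List.finRange 16).toFinset = Finset.univ := by
    ext e; simp
  rw [h3, h4, S_gs] at h2
  exact h2.symm

lemma antiprism_not_alternating : ¬ antiprism.Alternating := by
  intro h
  have h0 := h 0 (Nat.zero_le _)
  rw [antiprism_finrank, antiprism_coeff] at h0
  norm_num at h0

end Pool.Agent.H601_Pen
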