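import Mathlib

/-!
# A signed count of nonsingular matrices over the field with two elements

Bit-level computation of `∑_A (-1)^|A| [∑_{e ∈ A} g_e g_eᵀ is nonsingular]` for the 16 columns `g_e` of the
reduced vertex-edge incidence matrix of the square antiprism, and its correctness.
-/

namespace Pool.Agent.H601_Pen

/-- reduce a list of bit vectors by the pivot row `v` with pivot bit `p = 2 ^ b` -/
def redL (v p : ℕ) : List ℕ → List ℕ
  | [] => []
  | w :: ws => cond (Nat.beq (Nat.land w p) 0) w (Nat.xor w v) :: redL v p ws

/-- linear independence test -/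
def li : ℕ → List ℕ → Bool
  | 0, _ => true
  | _ + 1, [] => true
  | k + 1, v :: vs => cond (Nat.beq v 0) false (li k (redL v (Nat.pow 2 (Nat.log2 v)) vs))

/-- the seven rows of a packed matrix -/
def rows (M : ℕ) : List ℕ :=
  [Nat.land M 127, Nat.land (Nat.shiftRight M 7) 127, Nat.land (Nat.shiftRight M 14) 127,
   Nat.land (Nat.shiftRight M 21) 127, Nat.land (Nat.shiftRight M 28) 127,
   Nat.land (Nat.shiftRight M 35) 127, Nat.land (Nat.shiftRight M 42) 127]

/-- signed count -/
def S : List ℕ → ℕ → ℤ
  | [], M => cond (li 7 (rows M)) 1 0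
  | g :: gs, M => S gs M - S gs (Nat.xor M g)

/-- packed matrices `g_e g_eᵀ` -/
def gs : List ℕ := [1, 256, 65536, 16777216, 18874377, 4563402769, 387, 4831840512, 1168231108864,
  1236951171072, 299067163869184, 25362432, 316659499794432, 351865195724800, 1662152343552,
  425510999949312]

/-- the vector of the seven lowest bits -/
def φ (m : ℕ) : Fin 7 → ZMod 2 := fun j => if m.testBit j then 1 else 0

lemma φ_xor (a b : ℕ) : φ (a ^^^ b) = φ a + φ b := by
  funext j
  simp only [φ, Nat.testBit_xor, Pi.add_apply]
  cases a.testBit j <;> cases b.testBit j <;> decide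

/-- linear combination of a list of vectors -/
def comb : List (ZMod 2) → List (Fin 7 → ZMod 2) → (Fin 7 → ZMod 2)
  | c :: cs, v :: vs => c • v + comb cs vs
  | _, _ => 0

/-- independence of a list of vectors -/
def Indep (l : List (Fin 7 → ZMod 2)) : Prop :=
  ∀ cs : List (ZMod 2), cs.length = l.length → comb cs l = 0 → ∀ c ∈ cs, c = 0

lemma zmod2_cases (a : ZMod 2) : a = 0 ∨ a = 1 := by
  revert a; decide

/-- the sum of the coefficients times the `b`-entries -/
def tot (b : Fin 7) : List (ZMod 2) → List (Fin 7 → ZMod 2) → ZMod 2
  | c :: cs, v :: vs => c * v b + tot b cs vs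
  | _, _ => 0

lemma comb_red (b : Fin 7) (v : Fin 7 → ZMod 2) : ∀ (cs : List (ZMod 2)) (ws : List (Fin 7 → ZMod 2)),
    comb cs (ws.map fun w => w + (w b) • v) = comb cs ws + (tot b cs ws) • v := by
  intro cs
  induction cs with
  | nil => intro ws; simp [comb, tot]
  | cons c cs ih =>
    intro ws
    cases ws with
    | nil => simp [comb, tot]
    | cons w ws =>
      simp only [List.map_cons, comb, tot, ih ws]
      module

lemma comb_red_b (b : Fin 7) (v : Fin 7 → ZMod 2) (hv : v b = 1) :
    ∀ (cs : List (ZMod 2)) (ws : List (Fin 7 → ZMod 2)),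
    comb cs (ws.map fun w => w + (w b) • v) b = 0 := by
  intro cs
  induction cs with
  | nil => intro ws; simp [comb]
  | cons c cs ih =>
    intro ws
    cases ws with
    | nil => simp [comb]
    | cons w ws =>
      simp only [List.map_cons, comb, Pi.add_apply, Pi.smul_apply, smul_eq_mul, ih ws, hv, mul_one,
        add_zero]
      have : w b + w b = 0 := CharTwo.add_self_eq_zero _
      rw [this, mul_zero]

lemma indep_cons (b : Fin 7) (v : Fin 7 → ZMod 2) (hv : v b = 1) (ws : List (Fin 7 → ZMod 2)) :
    Indep (v :: ws) ↔ Indep (ws.map fun w => w + (w b) • v) := by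
  constructor
  · intro h cs hlen h0
    rw [comb_red] at h0
    have h1 : comb (tot b cs ws :: cs) (v :: ws) = 0 := by
      simp only [comb]; rw [add_comm]; exact h0
    intro c hc
    exact h (tot b cs ws :: cs) (by simpa using hlen) h1 c (List.mem_cons_of_mem _ hc)
  · intro h cs hlen h0
    cases cs with
    | nil => simp at hlen
    | cons c cs =>
      simp only [comb] at h0
      have hlen' : cs.length = ws.length := by simpa using hlen
      have h1 : comb cs (ws.map fun w => w + (w b) • v) = (tot b cs ws + c) • v := by
        rw [comb_red, add_smul, add_comm]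
        congr 1
        have : comb cs ws = c • v + (c • v + comb cs ws) := by
          rw [← add_assoc, ← add_smul, CharTwo.add_self_eq_zero, zero_smul, zero_add]
        rw [this, h0, add_zero]
      have h2 := comb_red_b b v hv cs ws
      rw [h1, Pi.smul_apply, hv, smul_eq_mul, mul_one] at h2
      rw [h2, zero_smul] at h1
      have h3 := h cs (by simpa using hlen') h1
      have h4 : tot b cs ws = 0 := by
        have aux : ∀ (cs : List (ZMod 2)) (ws : List (Fin 7 → ZMod 2)), (∀ c ∈ cs, c = 0) →
            tot b cs ws = 0 := by
          intro cs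
          induction cs with
          | nil => intro ws _; simp [tot]
          | cons c cs ih =>
            intro ws hh
            cases ws with
            | nil => simp [tot]
            | cons w ws =>
              simp only [tot]
              rw [ih ws (fun c hc => hh c (List.mem_cons_of_mem _ hc)), hh c List.mem_cons_self]
              ring
        exact aux cs ws h3
      have h5 : c = 0 := by rw [h4, zero_add] at h2; exact h2
      intro d hd
      rcases List.mem_cons.mp hd with rfl | hd
      · exact h5
      · exact h3 d hd

lemma comb_replicate (n : ℕ) : ∀ ws : List (Fin 7 → ZMod 2),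
    comb (List.replicate n 0) ws = 0 := by
  induction n with
  | zero => intro ws; simp [comb]
  | succ n ih =>
    intro ws
    cases ws with
    | nil => simp [comb, List.replicate_succ]
    | cons w ws => simp only [List.replicate_succ, comb, zero_smul, zero_add]; exact ih ws

lemma not_indep_zero (ws : List (Fin 7 → ZMod 2)) : ¬ Indep (0 :: ws) := by
  intro h
  have h1 : comb (1 :: List.replicate ws.length 0) (0 :: ws) = 0 := by
    simp only [comb, smul_zero, zero_add]
    exact comb_replicate _ ws
  have h2 := h _ (by simp) h1 1 List.mem_cons_self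
  exact absurd h2 (by decide)

lemma redL_map (v b : ℕ) (hb : b < 7) : ∀ ws : List ℕ,
    (redL v (Nat.pow 2 b) ws).map φ =
      (ws.map φ).map (fun w => w + (w ⟨b, hb⟩) • φ v) := by
  intro ws
  induction ws with
  | nil => rfl
  | cons w ws ih =>
    simp only [redL, List.map_cons, ih]
    congr 1
    have h1 : Nat.land w (Nat.pow 2 b) = (w.testBit b).toNat * 2 ^ b := Nat.and_two_pow w b
    rw [h1]
    cases hw : w.testBit b
    · have : Nat.beq ((false).toNat * 2 ^ b) 0 = true := by simp
      rw [this]
      simp [φ, hw]
    · have : Nat.beq ((true).toNat * 2 ^ b) 0 = false := by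
        rw [Bool.eq_false_iff]
        intro h
        have := Nat.eq_of_beq_eq_true h
        simp at this
      rw [this]
      simp only [cond_false]
      have h2 : φ (Nat.xor w v) = φ w + φ v := φ_xor w v
      rw [h2]
      congr 1
      simp [φ, hw]

lemma redL_lt (v p : ℕ) (hv : v < 128) : ∀ ws : List ℕ, (∀ w ∈ ws, w < 128) →
    ∀ w ∈ redL v p ws, w < 128 := by
  intro ws
  induction ws with
  | nil => intro _ w hw; simp [redL] at hw
  | cons u ws ih =>
    intro h w hw
    simp only [redL, List.mem_cons] at hw
    rcases hw with rfl | hw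
    · have hu : u < 128 := h u List.mem_cons_self
      cases Nat.beq (Nat.land u p) 0
      · simp only [cond_false]
        exact Nat.xor_lt_two_pow (n := 7) hu hv
      · simpa using hu
    · exact ih (fun x hx => h x (List.mem_cons_of_mem _ hx)) w hw

lemma redL_length (v p : ℕ) (ws : List ℕ) : (redL v p ws).length = ws.length := by
  induction ws with
  | nil => rfl
  | cons w ws ih => simp [redL, ih]

lemma li_iff : ∀ (k : ℕ) (vs : List ℕ), vs.length ≤ k → (∀ v ∈ vs, v < 128) →
    (li k vs = true ↔ Indep (vs.map φ)) := by
  intro k
  induction k with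
  | zero =>
    intro vs hlen _
    have : vs = [] := by
      cases vs with
      | nil => rfl
      | cons a l => simp at hlen
    subst this
    simp only [li, List.map_nil, true_iff]
    intro cs h _ c hc
    have : cs = [] := List.length_eq_zero_iff.mp (by simpa using h)
    rw [this] at hc
    simp at hc
  | succ k ih =>
    intro vs hlen hlt
    cases vs with
    | nil =>
      simp only [li, List.map_nil, true_iff]
      intro cs h _ c hc
      have : cs = [] := List.length_eq_zero_iff.mp (by simpa using h)
      rw [this] at hc
      simp at hc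
    | cons v vs =>
      simp only [li, List.map_cons]
      by_cases hv : v = 0
      · subst hv
        have h0 : φ 0 = 0 := by funext j; simp [φ]
        rw [h0]
        simp only [Nat.beq_refl, cond_true, Bool.false_eq_true, false_iff]
        exact not_indep_zero _
      · have hbeq : Nat.beq v 0 = false := by
          rw [Bool.eq_false_iff]
          intro h
          exact hv (Nat.eq_of_beq_eq_true h)
        rw [hbeq]
        simp only [cond_false]
        have hv128 : v < 128 := hlt v List.mem_cons_self
        have hb : Nat.log2 v < 7 := (Nat.log2_lt hv).mpr hv128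
        have hlen' : (redL v (Nat.pow 2 (Nat.log2 v)) vs).length ≤ k := by
          rw [redL_length]; simpa using hlen
        rw [ih _ hlen' (redL_lt v _ hv128 vs (fun x hx => hlt x (List.mem_cons_of_mem _ hx))),
          redL_map v _ hb]
        have htest : φ v ⟨Nat.log2 v, hb⟩ = 1 := by
          simp only [φ]
          rw [if_pos]
          have h1 := Nat.log2_self_le hv
          have h2 : v < 2 ^ (Nat.log2 v + 1) := Nat.lt_log2_self
          rw [Nat.testBit_eq_decide_div_mod_eq, decide_eq_true_eq]
          have h3 : v / 2 ^ Nat.log2 v = 1 := by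
            apply Nat.div_eq_of_lt_le
            · simpa using h1
            · rw [pow_succ] at h2; omega
          rw [h3]
        exact (indep_cons ⟨Nat.log2 v, hb⟩ (φ v) htest (vs.map φ)).symm

/-- the matrix packed in `M` -/
def dec (M : ℕ) : Matrix (Fin 7) (Fin 7) (ZMod 2) :=
  fun i j => if M.testBit (7 * (i : ℕ) + j) then 1 else 0

lemma dec_xor (M N : ℕ) : dec (Nat.xor M N) = dec M + dec N := by
  funext i j
  have : Nat.xor M N = M ^^^ N := rfl
  simp only [dec, this, Nat.testBit_xor, Matrix.add_apply]
  cases M.testBit (7 * (i : ℕ) + j) <;> cases N.testBit (7 * (i : ℕ) + j) <;> decide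

/-- nonsingular: trivial left kernel -/
def Ns (L : Matrix (Fin 7) (Fin 7) (ZMod 2)) : Prop :=
  ∀ x : Fin 7 → ZMod 2, (∀ j, ∑ i, x i * L i j = 0) → x = 0

lemma ns_iff (L : Matrix (Fin 7) (Fin 7) (ZMod 2)) :
    Ns L ↔ Indep [L 0, L 1, L 2, L 3, L 4, L 5, L 6] := by
  constructor
  · intro h cs hlen h0
    match cs, hlen with
    | [c0, c1, c2, c3, c4, c5, c6], _ =>
      have h1 := h ![c0, c1, c2, c3, c4, c5, c6] (by
        intro j
        have h2 := congrFun h0 j
        simp only [comb, Pi.add_apply, Pi.smul_apply, smul_eq_mul, Pi.zero_apply] at h2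
        simp only [Fin.sum_univ_succ, Fin.sum_univ_zero]
        simpa using h2)
      intro c hc
      have e0 := congrFun h1 0
      have e1 := congrFun h1 1
      have e2 := congrFun h1 2
      have e3 := congrFun h1 3
      have e4 := congrFun h1 4
      have e5 := congrFun h1 5
      have e6 := congrFun h1 6
      simp at e0 e1 e2 e3 e4 e5 e6
      simp only [List.mem_cons, List.not_mem_nil, or_false] at hc
      rcases hc with rfl | rfl | rfl | rfl | rfl | rfl | rfl <;> assumption
  · intro h x hx
    have h1 := h [x 0, x 1, x 2, x 3, x 4, x 5, x 6] (by simp) (by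
      funext j
      have h2 := hx j
      simp only [Fin.sum_univ_succ, Fin.sum_univ_zero] at h2
      simp only [comb, Pi.add_apply, Pi.smul_apply, smul_eq_mul, Pi.zero_apply]
      simpa using h2)
    funext i
    fin_cases i
    all_goals
      apply h1
      simp

lemma row_eq (M s : ℕ) (i : Fin 7) (hs : s = 7 * (i : ℕ)) :
    φ (Nat.land (Nat.shiftRight M s) 127) = dec M i := by
  funext j
  have h2 : Nat.testBit 127 (j : ℕ) = true := by
    have : (127 : ℕ) = 2 ^ 7 - 1 := by norm_num
    rw [this, Nat.testBit_two_pow_sub_one]
    simp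
  have h3 : (Nat.land (Nat.shiftRight M s) 127).testBit (j : ℕ) = M.testBit (7 * (i : ℕ) + j) := by
    have h1 : Nat.land (Nat.shiftRight M s) 127 = (M >>> s) &&& 127 := rfl
    rw [h1, Nat.testBit_and, Nat.testBit_shiftRight, h2, Bool.and_true, hs]
  simp only [φ, dec, h3]

lemma rows_map (M : ℕ) : (rows M).map φ =
    [dec M 0, dec M 1, dec M 2, dec M 3, dec M 4, dec M 5, dec M 6] := by
  have h0 : φ (Nat.land M 127) = dec M 0 := by
    have := row_eq M 0 0 rfl
    simpa using this
  simp only [rows, List.map_cons, List.map_nil, h0, row_eq M 7 1 rfl, row_eq M 14 2 rfl,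
    row_eq M 21 3 rfl, row_eq M 28 4 rfl, row_eq M 35 5 rfl, row_eq M 42 6 rfl]

lemma land_lt (a : ℕ) : Nat.land a 127 < 128 := by
  have : Nat.land a 127 = a &&& 127 := rfl
  rw [this]
  have := Nat.and_le_right (n := a) (m := 127)
  omega

lemma leaf (M : ℕ) : (li 7 (rows M) = true ↔ Ns (dec M)) := by
  rw [ns_iff, ← rows_map]
  apply li_iff 7 (rows M) (by simp [rows])
  intro v hv
  simp only [rows, List.mem_cons, List.not_mem_nil, or_false] at hv
  rcases hv with rfl | rfl | rfl | rfl | rfl | rfl | rfl <;> exact land_lt _

open Classical in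
/-- indicator of nonsingularity -/
noncomputable def ind (L : Matrix (Fin 7) (Fin 7) (ZMod 2)) : ℤ := if Ns L then 1 else 0

lemma S_nil (M : ℕ) : S [] M = ind (dec M) := by
  unfold ind
  by_cases h : Ns (dec M)
  · rw [if_pos h]
    have := (leaf M).mpr h
    simp [S, this]
  · rw [if_neg h]
    have : li 7 (rows M) = false := by
      rw [Bool.eq_false_iff]
      intro h'
      exact h ((leaf M).mp h')
    simp [S, this]

/-- the recursion computes the signed sum over all subsets -/
lemma S_eq {ι : Type} [DecidableEq ι] (code : ι → ℕ) : ∀ (l : List ι), l.Nodup → ∀ M : ℕ,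
    S (l.map code) M =
      ∑ A ∈ l.toFinset.powerset, (-1 : ℤ) ^ A.card * ind (dec M + ∑ e ∈ A, dec (code e)) := by
  intro l
  induction l with
  | nil => intro _ M; simp [S_nil]
  | cons a l ih =>
    intro hnd M
    have ha : a ∉ l.toFinset := by
      rw [List.mem_toFinset]; exact (List.nodup_cons.mp hnd).1
    have hl := (List.nodup_cons.mp hnd).2
    rw [List.map_cons, List.toFinset_cons, Finset.sum_powerset_insert ha]
    simp only [S]
    rw [ih hl M, ih hl, sub_eq_add_neg]
    congr 1
    rw [← Finset.sum_neg_distrib]
    apply Finset.sum_congr rfl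
    intro A hA
    have haA : a ∉ A := fun h => ha (Finset.mem_powerset.mp hA h)
    rw [Finset.card_insert_of_notMem haA, Finset.sum_insert haA, pow_succ, dec_xor, add_assoc]
    ring

end Pool.Agent.H601_Pen
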