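import Pool.Agent.H601_Pen.Defs

/-!
# Graphic and cographic are closed under minors and isomorphism; existence of minimal minors
-/

namespace Pool.Agent.H601_Pen

open Finset Polynomial Module

variable {α : Type} [DecidableEq α]

namespace BM

lemma z2_eq {a b : ZMod 2} (h : a + b = 0) : a = b := by
  revert a b; decide

lemma z2_add {a b : ZMod 2} (h : a = b) : a + b = 0 := by
  revert a b; decide

lemma mem_reduce (M : BM α) (A : Finset α) (c : α → ZMod 2) :
    c ∈ (M.reduce A).C ↔ c ∈ M.C ∧ ∀ e, e ∉ A → c e = 0 := Iff.rfl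

lemma mem_contract (M : BM α) (A : Finset α) (c : α → ZMod 2) :
    c ∈ (M.contract A).C ↔ ∃ d ∈ M.C, cut A d = c := Submodule.mem_map

/-- the relation contracting the edges in `D` -/
def rel {V : Type} (D : Finset α) (u v : α → V) (a b : V) : Prop := ∃ e ∈ D, u e = a ∧ v e = b

omit [DecidableEq α] in
lemma mk_eq {V : Type} {D : Finset α} {u v : α → V} {e : α} (he : e ∈ D) :
    Quot.mk (rel D u v) (u e) = Quot.mk (rel D u v) (v e) :=
  Quot.sound ⟨e, he, rfl, rfl⟩

lemma Cographic.contract {M : BM α} (h : Cographic M) (A : Finset α) : Cographic (M.contract A) := by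
  obtain ⟨V, hV, u, v, hC⟩ := h
  have key : ∀ y : V → ZMod 2, cut A (bd M.E u v y) = bd (M.contract A).E u v y := by
    intro y
    funext e
    simp only [cut, bd, LinearMap.coe_mk, AddHom.coe_mk, BM.contract, Finset.mem_inter]
    by_cases h1 : e ∈ A <;> by_cases h2 : e ∈ M.E <;> simp [h1, h2]
  refine ⟨V, hV, u, v, fun c => ?_⟩
  rw [mem_contract]
  constructor
  · rintro ⟨d, hd, rfl⟩
    obtain ⟨y, rfl⟩ := (hC d).mp hd
    exact ⟨y, key y⟩
  · rintro ⟨y, rfl⟩
    exact ⟨bd M.E u v y, (hC _).mpr ⟨y, rfl⟩, key y⟩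

lemma bd_quot {V : Type} {M : BM α} {A : Finset α} {u v : α → V}
    (y : Quot (rel (M.E \ A) u v) → ZMod 2) :
    bd (M.E ∩ A) (fun e => Quot.mk (rel (M.E \ A) u v) (u e)) (fun e => Quot.mk (rel (M.E \ A) u v) (v e)) y =
      bd M.E u v (fun x => y (Quot.mk _ x)) := by
  funext e
  simp only [bd, Finset.mem_inter]
  by_cases h1 : e ∈ M.E
  · by_cases h2 : e ∈ A
    · simp [h1, h2]
    · have : Quot.mk (rel (M.E \ A) u v) (u e) = Quot.mk (rel (M.E \ A) u v) (v e) :=
        mk_eq (Finset.mem_sdiff.mpr ⟨h1, h2⟩)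
      rw [if_neg (fun h => h2 h.2), if_pos h1, this]
      exact (z2_add rfl).symm
  · simp [h1]

lemma Cographic.reduce {M : BM α} (h : Cographic M) (A : Finset α) : Cographic (M.reduce A) := by
  obtain ⟨V, hV, u, v, hC⟩ := h
  refine ⟨Quot (rel (M.E \ A) u v), inferInstance, fun e => Quot.mk _ (u e), fun e => Quot.mk _ (v e),
    fun c => ?_⟩
  rw [mem_reduce]
  constructor
  · rintro ⟨hc, hA⟩
    obtain ⟨y, rfl⟩ := (hC c).mp hc
    have hy : ∀ a b, rel (M.E \ A) u v a b → y a = y b := by
      rintro a b ⟨e, he, rfl, rfl⟩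
      rw [Finset.mem_sdiff] at he
      have := hA e he.2
      simp only [bd, if_pos he.1] at this
      exact z2_eq this
    refine ⟨Quot.lift y hy, ?_⟩
    exact (bd_quot (M := M) (A := A) (u := u) (v := v) (Quot.lift y hy)).symm
  · rintro ⟨y, rfl⟩
    refine ⟨(hC _).mpr ⟨fun x => y (Quot.mk _ x), bd_quot (M := M) (A := A) y⟩, ?_⟩
    intro e he
    simp only [bd, BM.reduce, Finset.mem_inter]
    rw [if_neg (fun h => he h.2)]

lemma Graphic.reduce {M : BM α} (h : Graphic M) (A : Finset α) : Graphic (M.reduce A) := by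
  obtain ⟨V, hV, u, v, hC⟩ := h
  refine ⟨V, hV, u, v, fun c => ?_⟩
  rw [mem_reduce, hC]
  have hE : (M.reduce A).E = M.E ∩ A := rfl
  rw [hE]
  have key : (∀ e, e ∉ A → c e = 0) → ∀ y : V → ZMod 2,
      ∑ e ∈ M.E, c e * bd M.E u v y e = ∑ e ∈ M.E ∩ A, c e * bd (M.E ∩ A) u v y e := by
    intro hA y
    symm
    apply Finset.sum_subset_zero_on_sdiff Finset.inter_subset_left
    · intro e he
      rw [Finset.mem_sdiff, Finset.mem_inter, not_and] at he
      rw [hA e (he.2 he.1), zero_mul]
    · intro e he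
      rw [Finset.mem_inter] at he
      simp [bd, he.1, he.2]
  constructor
  · rintro ⟨⟨h1, h2⟩, h3⟩
    refine ⟨fun e he => ?_, fun y => by rw [← key h3]; exact h2 y⟩
    rw [Finset.mem_inter, not_and_or] at he
    rcases he with he | he
    · exact h1 e he
    · exact h3 e he
  · rintro ⟨h1, h2⟩
    have h3 : ∀ e, e ∉ A → c e = 0 := fun e he => h1 e (fun h => he (Finset.mem_inter.mp h).2)
    exact ⟨⟨fun e he => h1 e (fun h => he (Finset.mem_inter.mp h).1), fun y => by
      rw [key h3]; exact h2 y⟩, h3⟩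

/-- the functional `y ↦ y (u e) + y (v e)` -/
def fn {V : Type} (u v : α → V) (e : α) : (V → ZMod 2) →ₗ[ZMod 2] ZMod 2 where
  toFun y := y (u e) + y (v e)
  map_add' x y := by simp only [Pi.add_apply]; ring
  map_smul' r x := by simp only [Pi.smul_apply, smul_eq_mul, RingHom.id_apply]; ring

omit [DecidableEq α] in
lemma fn_apply {V : Type} (u v : α → V) (e : α) (y : V → ZMod 2) : fn u v e y = y (u e) + y (v e) := rfl

lemma Graphic.contract {M : BM α} (h : Graphic M) (A : Finset α) : Graphic (M.contract A) := by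
  obtain ⟨V, hV, u, v, hC⟩ := h
  refine ⟨Quot (rel (M.E \ A) u v), inferInstance, fun e => Quot.mk _ (u e), fun e => Quot.mk _ (v e),
    fun c => ?_⟩
  rw [mem_contract]
  have hE : (M.contract A).E = M.E ∩ A := rfl
  rw [hE]
  constructor
  · rintro ⟨d, hd, rfl⟩
    obtain ⟨h1, h2⟩ := (hC d).mp hd
    refine ⟨fun e he => ?_, fun y => ?_⟩
    · rw [Finset.mem_inter, not_and_or] at he
      simp only [cut, LinearMap.coe_mk, AddHom.coe_mk]
      split_ifs with h
      · exact h1 e (he.resolve_right (fun h' => h' h))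
      · rfl
    · rw [bd_quot (M := M) (A := A) y, ← h2 (fun x => y (Quot.mk _ x))]
      apply Finset.sum_subset_zero_on_sdiff Finset.inter_subset_left
      · intro e he
        have h3 : e ∈ M.E ∧ e ∉ A := by
          rw [Finset.mem_sdiff, Finset.mem_inter, not_and] at he
          exact ⟨he.1, he.2 he.1⟩
        have : Quot.mk (rel (M.E \ A) u v) (u e) = Quot.mk (rel (M.E \ A) u v) (v e) :=
          mk_eq (Finset.mem_sdiff.mpr h3)
        simp only [bd, if_pos h3.1, this]
        rw [z2_add rfl, mul_zero]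
      · intro e he
        rw [Finset.mem_inter] at he
        simp [cut, he.2]
  · rintro ⟨h1, h2⟩
    -- functionals
    have hker : (⨅ i : {e // e ∈ M.E \ A}, LinearMap.ker (fn u v i.1)) ≤
        LinearMap.ker (∑ e ∈ M.E ∩ A, c e • fn u v e) := by
      intro y hy
      rw [Submodule.mem_iInf] at hy
      have hy' : ∀ a b, rel (M.E \ A) u v a b → y a = y b := by
        rintro a b ⟨e, he, rfl, rfl⟩
        have := hy ⟨e, he⟩
        rw [LinearMap.mem_ker, fn_apply] at this
        exact z2_eq this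
      have h3 := h2 (Quot.lift y hy')
      rw [bd_quot (M := M) (A := A)] at h3
      rw [LinearMap.mem_ker, LinearMap.sum_apply, ← h3]
      apply Finset.sum_congr rfl
      intro e he
      rw [Finset.mem_inter] at he
      simp [bd, he.1, fn_apply]
    have hspan := mem_span_of_iInf_ker_le_ker hker
    rw [Submodule.mem_span_range_iff_exists_fun] at hspan
    obtain ⟨b, hb⟩ := hspan
    refine ⟨fun e => if e ∈ M.E ∩ A then c e else if h : e ∈ M.E \ A then b ⟨e, h⟩ else 0, ?_, ?_⟩
    · rw [hC]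
      refine ⟨fun e he => ?_, fun y => ?_⟩
      · rw [if_neg (fun h => he (Finset.mem_inter.mp h).1), dif_neg (fun h => he (Finset.mem_sdiff.mp h).1)]
      · have hb' := LinearMap.congr_fun hb y
        rw [LinearMap.sum_apply, LinearMap.sum_apply] at hb'
        have hsplit : M.E = (M.E ∩ A) ∪ (M.E \ A) := by
          ext e; simp only [Finset.mem_union, Finset.mem_inter, Finset.mem_sdiff]; tauto
        have hdisj : Disjoint (M.E ∩ A) (M.E \ A) := by
          rw [Finset.disjoint_left]; intro e h3 h4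
          exact (Finset.mem_sdiff.mp h4).2 (Finset.mem_inter.mp h3).2
        have e1 : ∑ e ∈ M.E ∩ A, (if e ∈ M.E ∩ A then c e else if h : e ∈ M.E \ A then b ⟨e, h⟩ else 0) *
            bd M.E u v y e = ∑ e ∈ M.E ∩ A, (c e • fn u v e) y := by
          apply Finset.sum_congr rfl
          intro e he
          rw [if_pos he]
          have := (Finset.mem_inter.mp he).1
          simp [bd, this, fn_apply]
        have e2 : ∑ e ∈ M.E \ A, (if e ∈ M.E ∩ A then c e else if h : e ∈ M.E \ A then b ⟨e, h⟩ else 0) *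
            bd M.E u v y e = ∑ i : {e // e ∈ M.E \ A}, (b i • fn u v i.1) y := by
          rw [← Finset.sum_attach (M.E \ A)]
          rw [← Finset.univ_eq_attach]
          apply Finset.sum_congr rfl
          intro i _
          have h3 : i.1 ∉ M.E ∩ A := fun h => (Finset.mem_sdiff.mp i.2).2 (Finset.mem_inter.mp h).2
          have h4 := (Finset.mem_sdiff.mp i.2).1
          rw [if_neg h3, dif_pos i.2]
          simp [bd, h4, fn_apply]
        have e3 : ∑ e ∈ M.E, (if e ∈ M.E ∩ A then c e else if h : e ∈ M.E \ A then b ⟨e, h⟩ else 0) *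
            bd M.E u v y e =
            ∑ e ∈ M.E ∩ A, (if e ∈ M.E ∩ A then c e else if h : e ∈ M.E \ A then b ⟨e, h⟩ else 0) *
              bd M.E u v y e +
            ∑ e ∈ M.E \ A, (if e ∈ M.E ∩ A then c e else if h : e ∈ M.E \ A then b ⟨e, h⟩ else 0) *
              bd M.E u v y e := by
          rw [← Finset.sum_union hdisj, ← hsplit]
        rw [e3, e1, e2]
        exact z2_add hb'.symm
    · funext e
      simp only [cut, LinearMap.coe_mk, AddHom.coe_mk]
      by_cases h3 : e ∈ A
      · rw [if_pos h3]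
        by_cases h4 : e ∈ M.E
        · rw [if_pos (Finset.mem_inter.mpr ⟨h4, h3⟩)]
        · rw [if_neg (fun h => h4 (Finset.mem_inter.mp h).1), dif_neg (fun h => h4 (Finset.mem_sdiff.mp h).1)]
          exact (h1 e (fun h => h4 (Finset.mem_inter.mp h).1)).symm
      · rw [if_neg h3]
        exact (h1 e (fun h => h3 (Finset.mem_inter.mp h).2)).symm

lemma IsMinor.graphic {M N : BM α} (h : IsMinor M N) (hM : Graphic M) : Graphic N := by
  induction h with
  | refl => exact hM
  | reduce N A _ _ ih => exact ih.reduce A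
  | contract N A _ _ ih => exact ih.contract A

lemma IsMinor.cographic {M N : BM α} (h : IsMinor M N) (hM : Cographic M) : Cographic N := by
  induction h with
  | refl => exact hM
  | reduce N A _ _ ih => exact ih.reduce A
  | contract N A _ _ ih => exact ih.contract A

lemma IsMinor.trans {M N N' : BM α} (h1 : IsMinor M N) (h2 : IsMinor N N') : IsMinor M N' := by
  induction h2 with
  | refl => exact h1
  | reduce N' A hA _ ih => exact IsMinor.reduce N' A hA ih
  | contract N' A hA _ ih => exact IsMinor.contract N' A hA ih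

/-- a bridgeless non-alternating matroid has a minimal non-alternating minor -/
lemma exists_minNonAlt (M : BM α) (hb : M.Bridgeless) (hna : ¬ M.Alternating) :
    ∃ N, IsMinor M N ∧ N.MinNonAlt := by
  classical
  have h : ∃ k, ∃ N : BM α, IsMinor M N ∧ N.Bridgeless ∧ ¬ N.Alternating ∧ N.E.card = k :=
    ⟨_, M, .refl, hb, hna, rfl⟩
  obtain ⟨N, h1, h2, h3, h4⟩ := Nat.find_spec h
  refine ⟨N, h1, h2, h3, ?_⟩
  intro N' hN' hlt hb'
  by_contra hna'
  exact Nat.find_min h (m := N'.E.card) (by rw [← h4]; exact hlt) ⟨N', h1.trans hN', hb', hna', rfl⟩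

/-- the pull-back of the definition of isomorphism -/
lemma Iso.cographic [Nonempty α] {β : Type} [DecidableEq β] {M : BM α} {N : BM β} (h : Iso M N)
    (hM : Cographic M) : Cographic N := by
  obtain ⟨f, hf, hC⟩ := h
  obtain ⟨V, hV, u, v, hM⟩ := hM
  obtain ⟨g, hg1, hg2⟩ : ∃ g : β → α, (∀ b ∈ N.E, g b ∈ M.E ∧ f (g b) = b) ∧ ∀ a ∈ M.E, g (f a) = a := by
    refine ⟨Function.invFunOn f M.E, ?_, ?_⟩
    · intro b hb
      have := hf.surjOn hb
      exact ⟨Function.invFunOn_mem this, Function.invFunOn_eq this⟩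
    · intro a ha
      exact hf.injOn.leftInvOn_invFunOn ha
  refine ⟨V, hV, u ∘ g, v ∘ g, fun c => ⟨fun hc => ?_, ?_⟩⟩
  · have hs := N.supp c hc
    have h1 := (hC c hs).mp hc
    obtain ⟨y, hy⟩ := (hM _).mp h1
    refine ⟨y, ?_⟩
    funext b
    by_cases hb : b ∈ N.E
    · have h2 := congrFun hy (g b)
      simp only [bd, (hg1 b hb).1, if_true, (hg1 b hb).2] at h2
      simp only [bd, hb, if_true, Function.comp_apply]
      exact h2
    · simp [bd, hb, hs b hb]
  · rintro ⟨y, rfl⟩
    have hs : ∀ b, b ∉ N.E → bd N.E (u ∘ g) (v ∘ g) y b = 0 := by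
      intro b hb; simp [bd, hb]
    rw [hC _ hs, hM]
    refine ⟨y, ?_⟩
    funext a
    by_cases ha : a ∈ M.E
    · have h3 : f a ∈ N.E := hf.mapsTo ha
      simp only [bd, ha, if_true, h3, Function.comp_apply, hg2 a ha]
    · simp [bd, ha]

lemma Iso.graphic [Nonempty α] {β : Type} [DecidableEq β] {M : BM α} {N : BM β} (h : Iso M N)
    (hM : Graphic M) : Graphic N := by
  obtain ⟨f, hf, hC⟩ := h
  obtain ⟨V, hV, u, v, hM⟩ := hM
  obtain ⟨g, hg1, hg2⟩ : ∃ g : β → α, (∀ b ∈ N.E, g b ∈ M.E ∧ f (g b) = b) ∧ ∀ a ∈ M.E, g (f a) = a := by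
    refine ⟨Function.invFunOn f M.E, ?_, ?_⟩
    · intro b hb
      have := hf.surjOn hb
      exact ⟨Function.invFunOn_mem this, Function.invFunOn_eq this⟩
    · intro a ha
      exact hf.injOn.leftInvOn_invFunOn ha
  -- the sums correspond
  have hsum : ∀ (c : β → ZMod 2) (y : V → ZMod 2),
      ∑ e ∈ M.E, (if e ∈ M.E then c (f e) else 0) * bd M.E u v y e =
      ∑ b ∈ N.E, c b * bd N.E (u ∘ g) (v ∘ g) y b := by
    intro c y
    apply Finset.sum_nbij f
    · intro a ha; exact hf.mapsTo ha
    · exact hf.injOn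
    · exact hf.surjOn
    · intro a ha
      have h3 : f a ∈ N.E := hf.mapsTo ha
      simp only [bd, ha, if_true, h3, Function.comp_apply, hg2 a ha]
  refine ⟨V, hV, u ∘ g, v ∘ g, fun c => ⟨fun hc => ?_, ?_⟩⟩
  · have hs := N.supp c hc
    have h1 := (hC c hs).mp hc
    have h2 := (hM _).mp h1
    refine ⟨hs, fun y => ?_⟩
    rw [← hsum]
    exact h2.2 y
  · rintro ⟨hs, h2⟩
    rw [hC _ hs, hM]
    refine ⟨fun e he => by simp [he], fun y => ?_⟩
    rw [hsum]
    exact h2 y

end BM

end Pool.Agent.H601_Pen
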