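import Pool.Agent.H601_Pen.Closure

/-!
# Rank, girth and size of a cographic matroid; the three exceptional matroids
-/

namespace Pool.Agent.H601_Pen

open Finset Polynomial Module

variable {α : Type} [DecidableEq α]

namespace BM

/-- `y ↦ δ(y)` as a linear map -/
def bdL {V : Type} (E : Finset α) (u v : α → V) : (V → ZMod 2) →ₗ[ZMod 2] (α → ZMod 2) where
  toFun y := bd E u v y
  map_add' x y := by
    funext e
    simp only [bd, Pi.add_apply]
    split_ifs
    · ring
    · simp
  map_smul' r x := by
    funext e
    simp only [bd, Pi.smul_apply, smul_eq_mul, RingHom.id_apply]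
    split_ifs
    · ring
    · simp

open Classical in
lemma cographic_count [Fintype α] {M : BM α} (h : Cographic M) (g : ℕ)
    (hg : ∀ c ∈ M.C, c ≠ 0 → g ≤ (univ.filter fun e => c e ≠ 0).card)
    (hr : 0 < finrank (ZMod 2) M.C) : (finrank (ZMod 2) M.C + 1) * g ≤ 2 * M.E.card := by
  obtain ⟨V, hV, u, v, hC⟩ := h
  haveI := Fintype.ofFinite V
  set st : V → (α → ZMod 2) := fun x => bd M.E u v (Pi.single x 1) with hst
  have hstC : ∀ x, st x ∈ M.C := fun x => (hC _).mpr ⟨_, rfl⟩
  set T : Finset V := univ.filter fun x => st x ≠ 0 with hT
  -- expansion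
  have hexp : ∀ y : V → ZMod 2, bd M.E u v y = ∑ x, y x • st x := by
    intro y
    have h1 : y = ∑ x, y x • (Pi.single x (1 : ZMod 2) : V → ZMod 2) := by
      funext z
      simp [Finset.sum_apply, Pi.single_apply]
    have h2 : bdL M.E u v y = ∑ x, y x • bdL M.E u v (Pi.single x 1) := by
      conv_lhs => rw [h1]
      rw [map_sum]
      simp only [map_smul]
    exact h2
  have hsum0 : ∑ x, st x = 0 := by
    have := hexp (fun _ => 1)
    simp only [one_smul] at this
    rw [← this]
    funext e
    simp only [bd, Pi.zero_apply]
    split_ifs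
    · decide
    · rfl
  -- double counting
  have hcount : T.card * g ≤ 2 * M.E.card := by
    have h1 : T.card * g ≤ ∑ x ∈ T, (univ.filter fun e => st x e ≠ 0).card := by
      rw [← smul_eq_mul, ← Finset.sum_const]
      apply Finset.sum_le_sum
      intro x hx
      exact hg _ (hstC x) (Finset.mem_filter.mp hx).2
    have h2 : ∑ x ∈ T, (univ.filter fun e => st x e ≠ 0).card =
        ∑ e, (T.filter fun x => st x e ≠ 0).card := by
      simp only [Finset.card_filter]
      rw [Finset.sum_comm]
    have h3 : ∑ e, (T.filter fun x => st x e ≠ 0).card ≤ ∑ e : α, if e ∈ M.E then 2 else 0 := by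
      apply Finset.sum_le_sum
      intro e _
      by_cases he : e ∈ M.E
      · rw [if_pos he]
        refine le_trans (Finset.card_le_card (t := {u e, v e}) ?_) Finset.card_le_two
        intro x hx
        have h4 := (Finset.mem_filter.mp hx).2
        simp only [hst, bd, he, if_true] at h4
        simp only [Finset.mem_insert, Finset.mem_singleton]
        by_contra hcon
        rw [not_or] at hcon
        apply h4
        rw [Pi.single_eq_of_ne (Ne.symm hcon.1), Pi.single_eq_of_ne (Ne.symm hcon.2), add_zero]
      · rw [if_neg he]
        apply le_of_eq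
        rw [Finset.card_eq_zero, Finset.filter_eq_empty_iff]
        intro x _
        simp [hst, bd, he]
    have h5 : (∑ e : α, if e ∈ M.E then 2 else 0) = 2 * M.E.card := by
      rw [← Finset.sum_filter]
      simp [mul_comm]
    rw [h2] at h1
    rw [h5] at h3
    exact h1.trans h3
  -- rank
  have hrank : finrank (ZMod 2) M.C + 1 ≤ T.card := by
    have hne : T.Nonempty := by
      rw [Finset.nonempty_iff_ne_empty]
      intro hemp
      have hall : ∀ x, st x = 0 := by
        intro x
        by_contra hx
        have : x ∈ T := Finset.mem_filter.mpr ⟨Finset.mem_univ x, hx⟩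
        rw [hemp] at this
        simp at this
      have hbot : M.C = ⊥ := by
        rw [Submodule.eq_bot_iff]
        intro c hc
        obtain ⟨y, rfl⟩ := (hC c).mp hc
        rw [hexp y]
        simp [hall]
      rw [hbot, finrank_bot] at hr
      exact lt_irrefl _ hr
    obtain ⟨x0, hx0⟩ := hne
    have hle : M.C ≤ Submodule.span (ZMod 2) (((T.erase x0).image st : Finset (α → ZMod 2)) : Set (α → ZMod 2)) := by
      have hmem : ∀ x, x ≠ x0 → st x ∈ Submodule.span (ZMod 2)
          (((T.erase x0).image st : Finset (α → ZMod 2)) : Set (α → ZMod 2)) := by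
        intro x hx
        by_cases h0 : st x = 0
        · rw [h0]; exact Submodule.zero_mem _
        · apply Submodule.subset_span
          rw [Finset.mem_coe]
          exact Finset.mem_image_of_mem _ (Finset.mem_erase.mpr ⟨hx,
            Finset.mem_filter.mpr ⟨Finset.mem_univ x, h0⟩⟩)
      have hmem0 : st x0 ∈ Submodule.span (ZMod 2)
          (((T.erase x0).image st : Finset (α → ZMod 2)) : Set (α → ZMod 2)) := by
        have h1 : st x0 = - ∑ x ∈ univ.erase x0, st x := by
          rw [← Finset.add_sum_erase _ _ (Finset.mem_univ x0)] at hsum0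
          exact eq_neg_of_add_eq_zero_left hsum0
        rw [h1]
        apply Submodule.neg_mem
        apply Submodule.sum_mem
        intro x hx
        exact hmem x (Finset.ne_of_mem_erase hx)
      intro c hc
      obtain ⟨y, rfl⟩ := (hC c).mp hc
      rw [hexp y]
      apply Submodule.sum_mem
      intro x _
      apply Submodule.smul_mem
      by_cases hx : x = x0
      · rw [hx]; exact hmem0
      · exact hmem x hx
    have h1 := Submodule.finrank_mono hle
    have h2 := finrank_span_finset_le_card (R := ZMod 2) ((T.erase x0).image st)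
    have h3 : ((T.erase x0).image st).card ≤ T.card - 1 := by
      refine Finset.card_image_le.trans ?_
      rw [Finset.card_erase_of_mem hx0]
    have h4 : 0 < T.card := Finset.card_pos.mpr ⟨x0, hx0⟩
    have h5 : finrank (ZMod 2) M.C ≤ ((T.erase x0).image st).card := h1.trans h2
    omega
  exact (Nat.mul_le_mul_right g hrank).trans hcount

end BM

end Pool.Agent.H601_Pen
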