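import Mathlib

/-!
# Binary matroids, minors, Penrose polynomial, graphic and cographic matroids
-/

namespace Pool.Agent.H601_Pen

open Finset Polynomial Module

/-- A binary matroid: a finite ground set `E` and a linear space `C` of subsets of `E` (its cycles), a subset
being identified with its characteristic vector over the field with two elements. -/
structure BM (α : Type) where
  /-- the ground set -/
  E : Finset α
  /-- the cycle space -/
  C : Submodule (ZMod 2) (α → ZMod 2)
  /-- cycles are subsets of the ground set -/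
  supp : ∀ c ∈ C, ∀ e, e ∉ E → c e = 0

variable {α : Type} [DecidableEq α]

/-- the intersection of the set `c` with `A` -/
def cut (A : Finset α) : (α → ZMod 2) →ₗ[ZMod 2] (α → ZMod 2) where
  toFun c := fun e => if e ∈ A then c e else 0
  map_add' x y := by funext e; by_cases h : e ∈ A <;> simp [h]
  map_smul' r x := by funext e; by_cases h : e ∈ A <;> simp [h]

namespace BM

omit [DecidableEq α] in
/-- the cocycle space: the subsets of `E` meeting every cycle in an even number of elements -/
def K (M : BM α) : Submodule (ZMod 2) (α → ZMod 2) where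
  carrier := {x | (∀ e, e ∉ M.E → x e = 0) ∧ ∀ c ∈ M.C, ∑ e ∈ M.E, x e * c e = 0}
  add_mem' := by
    intro x y hx hy
    refine ⟨fun e he => by simp [hx.1 e he, hy.1 e he], fun c hc => ?_⟩
    simp only [Pi.add_apply, add_mul, Finset.sum_add_distrib, hx.2 c hc, hy.2 c hc, add_zero]
  zero_mem' := ⟨fun e _ => rfl, fun c _ => by simp⟩
  smul_mem' := by
    intro r x hx
    refine ⟨fun e he => by simp [hx.1 e he], fun c hc => ?_⟩
    simp only [Pi.smul_apply, smul_eq_mul, mul_assoc, ← Finset.mul_sum, hx.2 c hc, mul_zero]

/-- the dual matroid `(E, K)` -/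
def dual (M : BM α) : BM α where
  E := M.E
  C := M.K
  supp := fun _ hc => hc.1

/-- no element of `E` is a bridge: every element lies in a cycle -/
def Bridgeless (M : BM α) : Prop := ∀ e ∈ M.E, ∃ c ∈ M.C, c e ≠ 0

/-- the reduction `M | A` (for `A ⊆ E`): ground set `A`, cycles the cycles contained in `A` -/
def reduce (M : BM α) (A : Finset α) : BM α where
  E := M.E ∩ A
  C :=
    { carrier := {c | c ∈ M.C ∧ ∀ e, e ∉ A → c e = 0}
      add_mem' := fun hx hy => ⟨M.C.add_mem hx.1 hy.1, fun e he => by
        simp [hx.2 e he, hy.2 e he]⟩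
      zero_mem' := ⟨M.C.zero_mem, fun e _ => rfl⟩
      smul_mem' := fun r x hx => ⟨M.C.smul_mem r hx.1, fun e he => by simp [hx.2 e he]⟩ }
  supp := fun c hc e he => by
    rw [Finset.mem_inter, not_and_or] at he
    rcases he with he | he
    · exact M.supp c hc.1 e he
    · exact hc.2 e he

/-- the contraction `M · A` (for `A ⊆ E`): ground set `A`, cycles the sets `C ∩ A` for the cycles `C` -/
def contract (M : BM α) (A : Finset α) : BM α where
  E := M.E ∩ A
  C := M.C.map (cut A)
  supp := fun c hc e he => by
    obtain ⟨d, hd, rfl⟩ := hc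
    rw [Finset.mem_inter, not_and_or] at he
    simp only [cut, LinearMap.coe_mk, AddHom.coe_mk]
    split_ifs with h
    · exact M.supp d hd e (he.resolve_right (fun h' => h' h))
    · rfl

/-- `IsMinor M N`: `N` is obtained from `M` by finitely many reductions and contractions -/
inductive IsMinor (M : BM α) : BM α → Prop
  | refl : IsMinor M M
  | reduce (N : BM α) (A : Finset α) (hA : A ⊆ N.E) : IsMinor M N → IsMinor M (N.reduce A)
  | contract (N : BM α) (A : Finset α) (hA : A ⊆ N.E) : IsMinor M N → IsMinor M (N.contract A)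

/-- the bicycle space `B_M(A)`: the cycles whose intersection with `A` is a cocycle -/
def B (M : BM α) (A : Finset α) : Submodule (ZMod 2) (α → ZMod 2) := M.C ⊓ M.K.comap (cut A)

/-- the Penrose polynomial -/
noncomputable def P (M : BM α) : ℤ[X] :=
  ∑ A ∈ M.E.powerset, (-1) ^ A.card * X ^ finrank (ZMod 2) (M.B A)

/-- the Penrose polynomial has alternating coefficients: `(-1)^(r-i) a_i > 0` for all `0 ≤ i ≤ r = dim C` -/
def Alternating (M : BM α) : Prop :=
  ∀ i ≤ finrank (ZMod 2) M.C, 0 < (-1) ^ (finrank (ZMod 2) M.C - i) * M.P.coeff i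

/-- minimal non-alternating bridgeless binary matroids -/
def MinNonAlt (M : BM α) : Prop :=
  M.Bridgeless ∧ ¬ M.Alternating ∧
    ∀ N : BM α, IsMinor M N → N.E.card < M.E.card → N.Bridgeless → N.Alternating

/-- isomorphism: a bijection of the ground sets under which the cycles correspond -/
def Iso {β : Type} (M : BM α) (N : BM β) : Prop :=
  ∃ f : α → β, Set.BijOn f M.E N.E ∧ ∀ x : β → ZMod 2, (∀ b, b ∉ N.E → x b = 0) →
    (x ∈ N.C ↔ (fun a => if a ∈ M.E then x (f a) else 0) ∈ M.C)

/-- the cut `δ(y)` of a graph with edges `e ∈ E` joining `u e` and `v e`: the edges whose ends get different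
colours under `y` -/
def bd {V : Type} (E : Finset α) (u v : α → V) (y : V → ZMod 2) : α → ZMod 2 :=
  fun e => if e ∈ E then y (u e) + y (v e) else 0

/-- graphic: the cycle matroid of a graph. Each `e ∈ E` is an edge joining `u e` and `v e` in a finite vertex
set `V`; the cycles are the edge sets meeting every cut in an even number of edges, i.e. the even edge sets. -/
def Graphic (M : BM α) : Prop :=
  ∃ (V : Type) (_ : Finite V) (u v : α → V), ∀ c, c ∈ M.C ↔
    (∀ e, e ∉ M.E → c e = 0) ∧ ∀ y : V → ZMod 2, ∑ e ∈ M.E, c e * bd M.E u v y e = 0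

/-- cographic: the cycles are the cuts of a graph with edge set `E`. -/
def Cographic (M : BM α) : Prop :=
  ∃ (V : Type) (_ : Finite V) (u v : α → V), ∀ c, c ∈ M.C ↔ ∃ y : V → ZMod 2, c = bd M.E u v y

end BM

/-- the cycle matroid of the graph on `V` whose edges `e : ε` join `u e` and `v e`: the cycles are the edge
sets in which every vertex has even degree -/
def cycleMatroid {V ε : Type} [DecidableEq V] [Fintype ε] (u v : ε → V) : BM ε where
  E := Finset.univ
  C :=
    { carrier := {c | ∀ x : V, ∑ e, ((if u e = x then c e else 0) + (if v e = x then c e else 0)) = 0}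
      add_mem' := by
        intro a b ha hb x
        have h : ∀ e, ((if u e = x then (a + b) e else 0) + (if v e = x then (a + b) e else 0)) =
            ((if u e = x then a e else 0) + (if v e = x then a e else 0)) +
            ((if u e = x then b e else 0) + (if v e = x then b e else 0)) := by
          intro e
          by_cases hu : u e = x <;> by_cases hv : v e = x <;> simp [hu, hv] <;> ring
        rw [Finset.sum_congr rfl (fun e _ => h e), Finset.sum_add_distrib, ha x, hb x, add_zero]
      zero_mem' := by intro x; simp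
      smul_mem' := by
        intro r a ha x
        have h : ∀ e, ((if u e = x then (r • a) e else 0) + (if v e = x then (r • a) e else 0)) =
            r * ((if u e = x then a e else 0) + (if v e = x then a e else 0)) := by
          intro e
          by_cases hu : u e = x <;> by_cases hv : v e = x <;> simp [hu, hv] <;> ring
        rw [Finset.sum_congr rfl (fun e _ => h e), ← Finset.mul_sum, ha x, mul_zero] }
  supp := fun _ _ e he => absurd (Finset.mem_univ e) he

/-- the bond matroid of the graph on `V` whose edges `e : ε` join `u e` and `v e`: the cycles are the cuts -/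
def bondMatroid {V ε : Type} [DecidableEq ε] [Fintype ε] (u v : ε → V) : BM ε where
  E := Finset.univ
  C :=
    { carrier := {c | ∃ y : V → ZMod 2, c = BM.bd Finset.univ u v y}
      add_mem' := by
        rintro a b ⟨y, rfl⟩ ⟨z, rfl⟩
        refine ⟨y + z, ?_⟩
        funext e
        simp only [BM.bd, Finset.mem_univ, if_true, Pi.add_apply]
        ring
      zero_mem' := ⟨0, by funext e; simp [BM.bd]⟩
      smul_mem' := by
        rintro r a ⟨y, rfl⟩
        refine ⟨r • y, ?_⟩
        funext e
        simp only [BM.bd, Finset.mem_univ, if_true, Pi.smul_apply, smul_eq_mul]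
        ring }
  supp := fun _ _ e he => absurd (Finset.mem_univ e) he

/-- the Fano matroid `F`: its cycle space is spanned by the lines `{i, i + 1, i + 3}` (mod 7) -/
def fano : BM (Fin 7) where
  E := Finset.univ
  C := Submodule.span (ZMod 2)
    (Set.range fun i : Fin 7 => fun j : Fin 7 => if j = i ∨ j = i + 1 ∨ j = i + 3 then (1 : ZMod 2) else 0)
  supp := fun _ _ e he => absurd (Finset.mem_univ e) he

/-- `Pet`: the cycle matroid of the Petersen graph. Its edges are `i — i+1` and `5+i — 5+(i+2)` (mod 5), and
`i — 5+i`, for `i = 0, ..., 4`. -/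
def petersen : BM (Fin 15) :=
  cycleMatroid (V := Fin 10)
    ![0, 1, 2, 3, 4, 5, 6, 7, 8, 9, 0, 1, 2, 3, 4]
    ![1, 2, 3, 4, 0, 7, 8, 9, 5, 6, 5, 6, 7, 8, 9]

/-- the cycle matroid of the complete graph `K₅` -/
def k5 : BM (Fin 10) :=
  cycleMatroid (V := Fin 5) ![0, 0, 0, 0, 1, 1, 1, 2, 2, 3] ![1, 2, 3, 4, 2, 3, 4, 3, 4, 4]

/-- first ends of the edges of the square antiprism -/
def antiU : Fin 16 → Fin 8 := ![0, 0, 0, 0, 1, 1, 1, 2, 2, 3, 3, 3, 4, 5, 5, 6]

/-- second ends of the edges of the square antiprism -/
def antiV : Fin 16 → Fin 8 := ![1, 2, 3, 4, 4, 5, 2, 5, 6, 6, 7, 4, 7, 7, 6, 7]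

/-- the bond matroid of the square antiprism -/
def antiprism : BM (Fin 16) := bondMatroid antiU antiV

end Pool.Agent.H601_Pen
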