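import Pool.Agent.H601_Pen.Count

/-!
# `F*` and `Pet` are not cographic, `K₅*` is not graphic
-/

namespace Pool.Agent.H601_Pen

open Finset Polynomial Module

/-- incidence matrix -/
def inc {V ε : Type} [DecidableEq V] (u v : ε → V) : Matrix V ε (ZMod 2) :=
  fun x e => (if u e = x then 1 else 0) + (if v e = x then 1 else 0)

lemma mem_cycleMatroid {V ε : Type} [DecidableEq V] [Fintype ε] (u v : ε → V) (c : ε → ZMod 2) :
    c ∈ (cycleMatroid u v).C ↔ (inc u v).mulVec c = 0 := by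
  constructor
  · intro h
    funext x
    refine Eq.trans ?_ (h x)
    simp only [Matrix.mulVec, dotProduct, inc]
    apply Finset.sum_congr rfl
    intro e _
    by_cases hu : u e = x <;> by_cases hv : v e = x <;> simp [hu, hv]
    ring
  · intro h x
    refine Eq.trans ?_ (congrFun h x)
    simp only [Matrix.mulVec, dotProduct, inc]
    apply Finset.sum_congr rfl
    intro e _
    by_cases hu : u e = x <;> by_cases hv : v e = x <;> simp [hu, hv]
    ring

lemma finrank_ge {n k : ℕ} (S : Submodule (ZMod 2) (Fin n → ZMod 2)) (L : Matrix (Fin n) (Fin k) (ZMod 2))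
    (h1 : ∀ t, L.mulVec t ∈ S) (h2 : ∀ t, L.mulVec t = 0 → t = 0) : k ≤ finrank (ZMod 2) S := by
  have hinj : Function.Injective L.mulVecLin := by
    rw [← LinearMap.ker_eq_bot, LinearMap.ker_eq_bot']
    intro t ht
    exact h2 t ht
  have h3 := LinearMap.finrank_range_of_inj hinj
  rw [Module.finrank_fin_fun] at h3
  rw [← h3]
  apply Submodule.finrank_mono
  rintro _ ⟨t, rfl⟩
  exact h1 t

/-! ### the dual Fano matroid -/

lemma mem_fanoDual (x : Fin 7 → ZMod 2) :
    x ∈ fano.dual.C ↔ ∀ i : Fin 7, x i + x (i + 1) + x (i + 3) = 0 := by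
  have hsum : ∀ i : Fin 7, ∑ e ∈ fano.E, x e * (if e = i ∨ e = i + 1 ∨ e = i + 3 then (1 : ZMod 2) else 0) =
      x i + x (i + 1) + x (i + 3) := by
    intro i
    have hE : fano.E = Finset.univ := rfl
    rw [hE]
    simp only [mul_ite, mul_one, mul_zero]
    rw [← Finset.sum_filter]
    have : (Finset.univ.filter fun e : Fin 7 => e = i ∨ e = i + 1 ∨ e = i + 3) = {i, i + 1, i + 3} := by
      revert i; decide
    rw [this]
    have h1 : i ∉ ({i + 1, i + 3} : Finset (Fin 7)) := by revert i; decide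
    have h2 : i + 1 ∉ ({i + 3} : Finset (Fin 7)) := by revert i; decide
    rw [Finset.sum_insert h1, Finset.sum_insert h2, Finset.sum_singleton, add_assoc]
  constructor
  · intro h i
    rw [← hsum i]
    exact h.2 _ (Submodule.subset_span ⟨i, rfl⟩)
  · intro h
    refine ⟨fun e he => absurd (Finset.mem_univ e) he, fun c hc => ?_⟩
    have hc' : c ∈ Submodule.span (ZMod 2) (Set.range fun i : Fin 7 => fun j : Fin 7 =>
        if j = i ∨ j = i + 1 ∨ j = i + 3 then (1 : ZMod 2) else 0) := hc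
    induction hc' using Submodule.span_induction with
    | mem y hy =>
      obtain ⟨i, rfl⟩ := hy
      exact (hsum i).trans (h i)
    | zero => simp
    | add a b _ _ ha hb =>
      simp only [Pi.add_apply, mul_add, Finset.sum_add_distrib]
      rw [ha ‹_›, hb ‹_›, add_zero]
    | smul r a _ ha =>
      simp only [Pi.smul_apply, smul_eq_mul]
      have : ∀ e, x e * (r * a e) = r * (x e * a e) := fun e => by ring
      simp only [this, ← Finset.mul_sum]
      rw [ha ‹_›, mul_zero]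

/-- three cycles of `F*` -/
def fanoL : Matrix (Fin 7) (Fin 3) (ZMod 2) :=
  ![![0, 1, 1], ![0, 0, 1], ![1, 0, 0], ![0, 1, 0], ![1, 0, 1], ![1, 1, 0], ![1, 1, 1]]

lemma fanoDual_not_cographic : ¬ BM.Cographic fano.dual := by
  intro h
  have hr : 3 ≤ finrank (ZMod 2) fano.dual.C := by
    apply finrank_ge _ fanoL
    · intro t
      rw [mem_fanoDual]
      revert t
      decide +kernel
    · decide +kernel
  have hw : ∀ c ∈ fano.dual.C, c ≠ 0 → 4 ≤ (univ.filter fun e => c e ≠ 0).card := by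
    intro c hc
    rw [mem_fanoDual] at hc
    revert c
    decide +kernel
  have := BM.cographic_count h 4 hw (by omega)
  have hE : fano.dual.E.card = 7 := rfl
  rw [hE] at this
  omega

/-! ### the Petersen graph -/

/-- fundamental cycles -/
def petL : Matrix (Fin 15) (Fin 6) (ZMod 2) :=
  ![![1, 1, 0, 1, 1, 0], ![1, 0, 0, 0, 1, 0], ![1, 0, 0, 0, 0, 0], ![1, 0, 0, 0, 0, 1],
    ![1, 0, 1, 1, 0, 1], ![0, 0, 1, 0, 1, 0], ![0, 1, 0, 0, 0, 0], ![0, 0, 1, 0, 0, 0],
    ![0, 1, 0, 0, 0, 1], ![0, 0, 0, 1, 0, 0], ![0, 1, 1, 0, 1, 1], ![0, 1, 0, 1, 0, 0],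
    ![0, 0, 0, 0, 1, 0], ![0, 0, 0, 0, 0, 1], ![0, 0, 1, 1, 0, 0]]

/-- fundamental cuts -/
def petA : Matrix (Fin 15) (Fin 10) (ZMod 2) :=
  ![![0, 1, 1, 0, 0, 0, 1, 0, 0, 0], ![0, 0, 1, 0, 0, 0, 0, 0, 0, 0],
    ![0, 0, 0, 0, 0, 0, 0, 0, 0, 0], ![0, 0, 0, 1, 0, 0, 0, 0, 0, 0],
    ![0, 0, 0, 1, 1, 0, 0, 0, 0, 1], ![0, 0, 0, 0, 0, 0, 0, 1, 0, 0],
    ![0, 0, 0, 0, 0, 0, 0, 0, 0, 0], ![0, 0, 0, 0, 0, 0, 0, 0, 0, 0],
    ![0, 0, 0, 0, 0, 0, 0, 0, 1, 0], ![0, 0, 0, 0, 0, 0, 0, 0, 0, 0],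
    ![0, 0, 0, 0, 0, 1, 0, 1, 1, 0], ![0, 0, 0, 0, 0, 0, 1, 0, 0, 0],
    ![0, 0, 0, 0, 0, 0, 0, 0, 0, 0], ![0, 0, 0, 0, 0, 0, 0, 0, 0, 0],
    ![0, 0, 0, 0, 0, 0, 0, 0, 0, 1]]

/-- coordinates off the tree -/
def petR : Matrix (Fin 6) (Fin 15) (ZMod 2) := fun k e => if e = (![2, 6, 7, 9, 12, 13] : Fin 6 → Fin 15) k then 1 else 0

lemma pet_id : (1 : Matrix (Fin 15) (Fin 15) (ZMod 2)) = petL * petR +
    petA * inc (V := Fin 10) ![0, 1, 2, 3, 4, 5, 6, 7, 8, 9, 0, 1, 2, 3, 4]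
    ![1, 2, 3, 4, 0, 7, 8, 9, 5, 6, 5, 6, 7, 8, 9] := by decide +kernel

lemma pet_cycle (c : Fin 15 → ZMod 2) (hc : c ∈ petersen.C) : c = petL.mulVec (petR.mulVec c) := by
  have h1 := (mem_cycleMatroid _ _ c).mp hc
  have h2 : c = (1 : Matrix (Fin 15) (Fin 15) (ZMod 2)).mulVec c := (Matrix.one_mulVec c).symm
  rw [pet_id, Matrix.add_mulVec, ← Matrix.mulVec_mulVec, ← Matrix.mulVec_mulVec, h1, Matrix.mulVec_zero,
    add_zero] at h2
  exact h2

lemma pet_weight : ∀ t : Fin 6 → ZMod 2, petL.mulVec t ≠ 0 →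
    5 ≤ (univ.filter fun e => petL.mulVec t e ≠ 0).card := by decide +kernel

lemma petersen_not_cographic : ¬ BM.Cographic petersen := by
  intro h
  have hr : 6 ≤ finrank (ZMod 2) petersen.C := by
    apply finrank_ge _ petL
    · intro t
      rw [petersen, mem_cycleMatroid]
      revert t
      decide +kernel
    · decide +kernel
  have hw : ∀ c ∈ petersen.C, c ≠ 0 → 5 ≤ (univ.filter fun e => c e ≠ 0).card := by
    intro c hc hne
    have h1 := pet_cycle c hc
    rw [h1] at hne ⊢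
    exact pet_weight _ hne
  have := BM.cographic_count h 5 hw (by omega)
  have hE : petersen.E.card = 15 := rfl
  rw [hE] at this
  omega

/-! ### the complete graph on five vertices -/

/-- fundamental cycles -/
def k5L : Matrix (Fin 10) (Fin 6) (ZMod 2) :=
  ![![1, 1, 1, 0, 0, 0], ![1, 0, 0, 1, 1, 0], ![0, 1, 0, 1, 0, 1], ![0, 0, 1, 0, 1, 1],
    ![1, 0, 0, 0, 0, 0], ![0, 1, 0, 0, 0, 0], ![0, 0, 1, 0, 0, 0], ![0, 0, 0, 1, 0, 0],
    ![0, 0, 0, 0, 1, 0], ![0, 0, 0, 0, 0, 1]]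

/-- fundamental cuts -/
def k5A : Matrix (Fin 10) (Fin 5) (ZMod 2) :=
  ![![0, 1, 0, 0, 0], ![0, 0, 1, 0, 0], ![0, 0, 0, 1, 0], ![0, 0, 0, 0, 1], ![0, 0, 0, 0, 0],
    ![0, 0, 0, 0, 0], ![0, 0, 0, 0, 0], ![0, 0, 0, 0, 0], ![0, 0, 0, 0, 0], ![0, 0, 0, 0, 0]]

/-- coordinates off the tree -/
def k5R : Matrix (Fin 6) (Fin 10) (ZMod 2) := fun k e => if e = (![4, 5, 6, 7, 8, 9] : Fin 6 → Fin 10) k then 1 else 0

lemma k5_id : (1 : Matrix (Fin 10) (Fin 10) (ZMod 2)) = k5L * k5R +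
    k5A * inc (V := Fin 5) ![0, 0, 0, 0, 1, 1, 1, 2, 2, 3] ![1, 2, 3, 4, 2, 3, 4, 3, 4, 4] := by
  decide +kernel

lemma k5_cycle (c : Fin 10 → ZMod 2) (hc : c ∈ k5.C) : c = k5L.mulVec (k5R.mulVec c) := by
  have h1 := (mem_cycleMatroid _ _ c).mp hc
  have h2 : c = (1 : Matrix (Fin 10) (Fin 10) (ZMod 2)).mulVec c := (Matrix.one_mulVec c).symm
  rw [k5_id, Matrix.add_mulVec, ← Matrix.mulVec_mulVec, ← Matrix.mulVec_mulVec, h1, Matrix.mulVec_zero,
    add_zero] at h2
  exact h2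

lemma k5_weight : ∀ t : Fin 6 → ZMod 2, k5L.mulVec t ≠ 0 →
    3 ≤ (univ.filter fun e => k5L.mulVec t e ≠ 0).card := by decide +kernel

lemma k5L_mem (t : Fin 6 → ZMod 2) : k5L.mulVec t ∈ k5.C := by
  rw [k5, mem_cycleMatroid]
  revert t
  decide +kernel

lemma k5_idT : (1 : Matrix (Fin 10) (Fin 10) (ZMod 2)) = k5R.transpose * k5L.transpose +
    (inc (V := Fin 5) ![0, 0, 0, 0, 1, 1, 1, 2, 2, 3] ![1, 2, 3, 4, 2, 3, 4, 3, 4, 4]).transpose *
      k5A.transpose := by
  decide +kernel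

lemma k5A_zero (e : Fin 10) (x : Fin 5) : (e = 0 ∨ e = 1 ∨ e = 2 ∨ e = 3) ∨ k5A e x = 0 := by
  fin_cases e
  · exact Or.inl (by decide)
  · exact Or.inl (by decide)
  · exact Or.inl (by decide)
  · exact Or.inl (by decide)
  all_goals
    right
    revert x
    decide

lemma k5L_orth (c : Fin 10 → ZMod 2) (hc : c ∈ k5.dual.C) : k5L.transpose.mulVec c = 0 := by
  funext k
  have h3 := k5L_mem (Pi.single k 1)
  rw [Matrix.mulVec_single_one] at h3
  have h4 := hc.2 _ h3
  refine Eq.trans ?_ h4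
  rw [Matrix.mulVec, dotProduct]
  exact Finset.sum_congr rfl (fun e _ => mul_comm _ _)

lemma k5A_tree (c : Fin 10 → ZMod 2) (h0 : c 0 = 0) (h1 : c 1 = 0) (h2 : c 2 = 0)
    (h3 : c 3 = 0) : k5A.transpose.mulVec c = 0 := by
  funext x
  rw [Matrix.mulVec, dotProduct, Pi.zero_apply]
  apply Finset.sum_eq_zero
  intro e _
  rcases k5A_zero e x with he | he
  · rcases he with he | he | he | he
    · rw [he, h0, mul_zero]
    · rw [he, h1, mul_zero]
    · rw [he, h2, mul_zero]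
    · rw [he, h3, mul_zero]
  · rw [Matrix.transpose_apply, he, zero_mul]

/-- the transposed identity: an element orthogonal to all cycles is determined by its tree coordinates -/
lemma k5_dual_zero (c : Fin 10 → ZMod 2) (hc : c ∈ k5.dual.C) (h0 : c 0 = 0) (h1 : c 1 = 0) (h2 : c 2 = 0)
    (h3 : c 3 = 0) : c = 0 := by
  have hL := k5L_orth c hc
  have hA := k5A_tree c h0 h1 h2 h3
  have h6 : c = (1 : Matrix (Fin 10) (Fin 10) (ZMod 2)).mulVec c := (Matrix.one_mulVec c).symm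
  rw [k5_idT, Matrix.add_mulVec, ← Matrix.mulVec_mulVec, ← Matrix.mulVec_mulVec, hL, hA, Matrix.mulVec_zero,
    Matrix.mulVec_zero, add_zero] at h6
  exact h6

/-- restriction to the four tree edges -/
def tree4 : (Fin 10 → ZMod 2) →ₗ[ZMod 2] (Fin 4 → ZMod 2) where
  toFun c := fun i => c (Fin.castLE (by norm_num) i)
  map_add' x y := rfl
  map_smul' r x := rfl

lemma k5_dual_finrank : finrank (ZMod 2) k5.dual.C ≤ 4 := by
  have hinj : Function.Injective (tree4.comp k5.dual.C.subtype) := by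
    rw [← LinearMap.ker_eq_bot, LinearMap.ker_eq_bot']
    intro c hc
    have hc' : (fun i : Fin 4 => c.1 (Fin.castLE (by norm_num) i)) = 0 := hc
    apply Subtype.ext
    apply k5_dual_zero c.1 c.2
    · exact congrFun hc' 0
    · exact congrFun hc' 1
    · exact congrFun hc' 2
    · exact congrFun hc' 3
  have := LinearMap.finrank_le_finrank_of_injective hinj
  rwa [Module.finrank_fin_fun] at this

/-- pairing with the elements of `D` -/
def pair (D : Submodule (ZMod 2) (Fin 10 → ZMod 2)) :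
    (Fin 10 → ZMod 2) →ₗ[ZMod 2] Module.Dual (ZMod 2) D where
  toFun c :=
    { toFun := fun d => ∑ e, c e * d.1 e
      map_add' := by intro x y; simp [mul_add, Finset.sum_add_distrib]
      map_smul' := by
        intro r x
        simp only [SetLike.val_smul, Pi.smul_apply, smul_eq_mul, RingHom.id_apply, Finset.mul_sum]
        apply Finset.sum_congr rfl
        intro e _
        ring }
  map_add' x y := by
    apply LinearMap.ext
    intro d
    simp [add_mul, Finset.sum_add_distrib]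
  map_smul' r x := by
    apply LinearMap.ext
    intro d
    simp [mul_assoc, Finset.mul_sum]

lemma k5Dual_not_graphic : ¬ BM.Graphic k5.dual := by
  rintro ⟨V, hV, u, v, hC⟩
  have hE : k5.dual.E = Finset.univ := rfl
  rw [hE] at hC
  let D : BM (Fin 10) :=
    { E := Finset.univ
      C := LinearMap.range (BM.bdL Finset.univ u v)
      supp := fun _ _ e he => absurd (Finset.mem_univ e) he }
  have hDC : BM.Cographic D := by
    refine ⟨V, hV, u, v, fun c => ?_⟩
    constructor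
    · rintro ⟨y, rfl⟩; exact ⟨y, rfl⟩
    · rintro ⟨y, rfl⟩; exact ⟨y, rfl⟩
  -- the cuts of the graph `(V, u, v)` are cycles of `K₅`
  have hsub : ∀ c ∈ D.C, c ∈ k5.C := by
    rintro c ⟨y, rfl⟩
    rw [k5, mem_cycleMatroid]
    funext x
    have hst : inc (V := Fin 5) ![0, 0, 0, 0, 1, 1, 1, 2, 2, 3] ![1, 2, 3, 4, 2, 3, 4, 3, 4, 4] x ∈
        k5.dual.C := by
      refine ⟨fun e he => absurd (Finset.mem_univ e) he, fun c hc => ?_⟩
      exact congrFun ((mem_cycleMatroid _ _ c).mp hc) x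
    exact ((hC _).mp hst).2 y
  have hw : ∀ c ∈ D.C, c ≠ 0 → 3 ≤ (univ.filter fun e => c e ≠ 0).card := by
    intro c hc hne
    have h1 := k5_cycle c (hsub c hc)
    rw [h1] at hne ⊢
    exact k5_weight _ hne
  have hD5 : finrank (ZMod 2) D.C ≤ 5 := by
    by_contra hlt
    have := BM.cographic_count hDC 3 hw (by omega)
    have hE : D.E.card = 10 := rfl
    rw [hE] at this
    omega
  have hker : LinearMap.ker (pair D.C) ≤ k5.dual.C := by
    intro c hc
    rw [hC]
    refine ⟨fun e he => absurd (Finset.mem_univ e) he, fun y => ?_⟩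
    exact LinearMap.congr_fun hc ⟨BM.bd Finset.univ u v y, ⟨y, rfl⟩⟩
  have h1 := LinearMap.finrank_range_add_finrank_ker (pair D.C)
  have h2 : finrank (ZMod 2) (LinearMap.range (pair D.C)) ≤ finrank (ZMod 2) D.C := by
    have := Submodule.finrank_le (LinearMap.range (pair D.C))
    rwa [Subspace.dual_finrank_eq] at this
  have h3 := Submodule.finrank_mono hker
  have h4 := k5_dual_finrank
  rw [Module.finrank_fin_fun] at h1
  omega

end Pool.Agent.H601_Pen
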